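import Mathlib

/-!
# Dual varieties of reciprocal linear spaces: definitions and statements of the packages (project RL)

`L` is a linear subspace of `k^E`, `orth L` its orthogonal complement, `u_i = z_i x_i ^ 2` for `x ∈ L`,
`z ∈ orth L`; the points `u` are the (coefficient vectors of the) hyperplanes tangent to the reciprocal
linear space at `(1 / x_i)`. `PI L` is the ideal of the polynomials that vanish at all these `u`.
-/

set_option autoImplicit false

open MvPolynomial

namespace Pool.Agent.U424.RL

section defs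

variable {k : Type} [Field k] {E : Type} [Fintype E]

/-- The orthogonal complement for the standard bilinear form. -/
def orth (L : Submodule k (E → k)) : Submodule k (E → k) where
  carrier := {c | ∀ y ∈ L, ∑ i, c i * y i = 0}
  add_mem' := by
    intro a b ha hb y hy
    simp only [Pi.add_apply, add_mul, Finset.sum_add_distrib, ha y hy, hb y hy, add_zero]
  zero_mem' := by
    intro y _
    simp
  smul_mem' := by
    intro c a ha y hy
    simp only [Pi.smul_apply, smul_eq_mul, mul_assoc, ← Finset.mul_sum, ha y hy, mul_zero]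

/-- `x : E → S` satisfies the linear equations of `L`: a point of `L` over the algebra `S`. -/
def OnL (L : Submodule k (E → k)) {S : Type} [CommRing S] [Algebra k S] (x : E → S) : Prop :=
  ∀ c ∈ orth L, ∑ i, algebraMap k S (c i) * x i = 0

/-- The point `(z_i x_i ^ 2)`. -/
def img {S : Type} [CommRing S] (x z : E → S) : E → S := fun i => z i * x i ^ 2

/-- The ideal of the polynomials that vanish at all points `(z_i x_i ^ 2)`, `x ∈ L`, `z ∈ orth L`. -/
def PI (L : Submodule k (E → k)) : Ideal (MvPolynomial E k) where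
  carrier := {F | ∀ x ∈ L, ∀ z ∈ orth L, eval (img x z) F = 0}
  add_mem' := by
    intro a b ha hb x hx z hz
    rw [map_add, ha x hx z hz, hb x hx z hz, add_zero]
  zero_mem' := by
    intro x _ z _
    simp
  smul_mem' := by
    intro c a ha x hx z hz
    rw [smul_eq_mul, map_mul, ha x hx z hz, mul_zero]

/-- `A` separates `L`: `L` is the direct sum of its part supported in `A` and its part supported in
the complement. -/
def Sep (L : Submodule k (E → k)) (A : Set E) : Prop := ∀ x ∈ L, A.indicator x ∈ L

/-- `L` is not zero and its matroid is connected. -/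
structure Conn (L : Submodule k (E → k)) : Prop where
  ne_bot : L ≠ ⊥
  conn : ∀ A : Set E, A.Nonempty → Aᶜ.Nonempty → ¬ Sep L A

/-- The rank of `S` in the matroid of `L`: the dimension of the restriction of `L` to `S`. -/
noncomputable def rk (L : Submodule k (E → k)) (S : Finset E) : ℕ :=
  Module.finrank k (L.map (LinearMap.funLeft k k (Subtype.val : {i : E // i ∈ S} → E)))

/-- The beta invariant of the matroid of `L`. -/
noncomputable def beta (L : Submodule k (E → k)) : ℤ :=
  (-1) ^ rk L Finset.univ * ∑ S : Finset E, (-1) ^ S.card * (rk L S : ℤ)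

/-- Deletion of `e`: restriction to the other coordinates. -/
def del (e : E) (L : Submodule k (E → k)) : Submodule k ({i : E // i ≠ e} → k) :=
  L.map (LinearMap.funLeft k k (Subtype.val : {i : E // i ≠ e} → E))

/-- Contraction of `e`: the vectors with `x e = 0`. -/
def con (e : E) (L : Submodule k (E → k)) : Submodule k ({i : E // i ≠ e} → k) :=
  (L ⊓ LinearMap.ker (LinearMap.proj e : (E → k) →ₗ[k] k)).map
    (LinearMap.funLeft k k (Subtype.val : {i : E // i ≠ e} → E))

/-- Putting `u e = 0`. -/
noncomputable def rst [DecidableEq E] (e : E) :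
    MvPolynomial E k →ₐ[k] MvPolynomial {i : E // i ≠ e} k :=
  aeval (fun i => if h : i ≠ e then X ⟨i, h⟩ else 0)

end defs

/-! ### Statements -/

/-- Package GEN, part 1: the double complement. -/
def S_OO : Prop := ∀ {k : Type} [Field k] {E : Type} [Fintype E] (L : Submodule k (E → k)),
  orth (orth L) = L

/-- Package GEN, part 2: polynomial identities on `L × orth L` hold for points over algebras. -/
def S_PID : Prop := ∀ {k : Type} [Field k] [CharZero k] {E : Type} [Fintype E]
  (L : Submodule k (E → k)) (H : MvPolynomial (E ⊕ E) k)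
  (_ : ∀ x ∈ L, ∀ z ∈ orth L, eval (Sum.elim x z) H = 0)
  {S : Type} [CommRing S] [Algebra k S] (x z : E → S) (_ : OnL L x) (_ : OnL (orth L) z),
  aeval (Sum.elim x z) H = 0

/-- Package GEN, part 3: there is a generic point in some field. -/
def S_GEN : Prop := ∀ {k : Type} [Field k] [CharZero k] {E : Type} [Fintype E]
  (L : Submodule k (E → k)), ∃ (K : Type) (_ : Field K) (_ : Algebra k K) (x z : E → K),
    OnL L x ∧ OnL (orth L) z ∧ ∀ H : MvPolynomial (E ⊕ E) k, aeval (Sum.elim x z) H = 0 →
      ∀ x ∈ L, ∀ z ∈ orth L, eval (Sum.elim x z) H = 0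

/-- Package TRD: a nonzero polynomial that vanishes at all points `(z_i x_i ^ 2)` over fields. -/
def S_TRD : Prop := ∀ {k : Type} [Field k] [CharZero k] {E : Type} [Fintype E] [Nonempty E]
  (L : Submodule k (E → k)), ∃ R : MvPolynomial E k, R ≠ 0 ∧
    ∀ {S : Type} [Field S] [Algebra k S] (x z : E → S), OnL L x → OnL (orth L) z →
      (∀ i, x i ≠ 0) → aeval (img x z) R = 0

/-- Package TUT, part 1: no loops and no coloops. -/
def S_NLC : Prop := ∀ {k : Type} [Field k] {E : Type} [Fintype E] [Nontrivial E]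
  (L : Submodule k (E → k)), Conn L → ∀ e : E, (∃ x ∈ L, x e ≠ 0) ∧ ∃ z ∈ orth L, z e ≠ 0

/-- Package TUT, part 2 (Tutte): deletion or contraction is connected. -/
def S_TUT : Prop := ∀ {k : Type} [Field k] {E : Type} [Fintype E] [DecidableEq E] [Nontrivial E]
  (L : Submodule k (E → k)), Conn L → ∀ e : E, Conn (del e L) ∨ Conn (con e L)

/-- Package RKF, part 1: rank function of the deletion. -/
def S_RKD : Prop := ∀ {k : Type} [Field k] {E : Type} [Fintype E] [DecidableEq E]
  (L : Submodule k (E → k)) (e : E) (S : Finset {i : E // i ≠ e}),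
    rk (del e L) S = rk L (S.map (Function.Embedding.subtype _))

/-- Package RKF, part 2: rank function of the contraction. -/
def S_RKC : Prop := ∀ {k : Type} [Field k] {E : Type} [Fintype E] [DecidableEq E]
  (L : Submodule k (E → k)) (e : E), (∃ x ∈ L, x e ≠ 0) → ∀ S : Finset {i : E // i ≠ e},
    rk (con e L) S + 1 = rk L (insert e (S.map (Function.Embedding.subtype _)))

/-- Package RKF, part 3: the rank function is submodular. -/
def S_SUB : Prop := ∀ {k : Type} [Field k] {E : Type} [Fintype E] [DecidableEq E]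
  (L : Submodule k (E → k)) (A B : Finset E),
    rk L (A ∪ B) + rk L (A ∩ B) ≤ rk L A + rk L B

/-- Package RKF, part 4: separators and ranks. -/
def S_SEP : Prop := ∀ {k : Type} [Field k] {E : Type} [Fintype E] [DecidableEq E]
  (L : Submodule k (E → k)) (A : Finset E),
    Sep L (A : Set E) ↔ rk L A + rk L Aᶜ = rk L Finset.univ

/-- Package BET, part 1: dimensions of deletion and contraction. -/
def S_DIM : Prop := ∀ {k : Type} [Field k] {E : Type} [Fintype E] [DecidableEq E]
  (L : Submodule k (E → k))
  (e : E), (∃ x ∈ L, x e ≠ 0) → (∃ z ∈ orth L, z e ≠ 0) →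
    Module.finrank k (del e L) = Module.finrank k L ∧
      Module.finrank k (con e L) + 1 = Module.finrank k L

/-- Package BET, part 2: the recursion. -/
def S_BETR : Prop := ∀ {k : Type} [Field k] {E : Type} [Fintype E] [DecidableEq E] [Nontrivial E]
  (L : Submodule k (E → k)) (e : E), (∃ x ∈ L, x e ≠ 0) → (∃ z ∈ orth L, z e ≠ 0) →
    beta L = beta (del e L) + beta (con e L)

/-- Package BET, part 3: the beta invariant of a matroid that is not connected. -/
def S_BETZ : Prop := ∀ {k : Type} [Field k] {E : Type} [Fintype E] [Nonempty E]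
  (L : Submodule k (E → k)), ¬ Conn L → beta L = 0

/-- Package BET, part 4: one element. -/
def S_BETO : Prop := ∀ {k : Type} [Field k] {E : Type} [Fintype E] [Subsingleton E]
  (L : Submodule k (E → k)), Conn L → beta L = 1 ∧ Module.finrank k L = 1

/-- Package GRA: the gradient of `R ∈ PI L` at `(z_i x_i ^ 2)` is proportional to `(1 / x_i)`. -/
def S_GRA : Prop := ∀ {k : Type} [Field k] [CharZero k] {E : Type} [Fintype E]
  (L : Submodule k (E → k)), Conn L → ∀ R ∈ PI L, ∀ x ∈ L, ∀ z ∈ orth L, ∀ i j : E,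
    x i * eval (img x z) (pderiv i R) = x j * eval (img x z) (pderiv j R)

/-- Package PRI: `PI L` is generated by an irreducible homogeneous polynomial. -/
def S_PRI : Prop := ∀ {k : Type} [Field k] [CharZero k] {E : Type} [Fintype E]
  (L : Submodule k (E → k)), Conn L → ∃ F : MvPolynomial E k, Irreducible F ∧
    F.IsHomogeneous F.totalDegree ∧ PI L = Ideal.span {F}

/-- Package NAS: the ideals of the deletion and the contraction are different. -/
def S_NAS : Prop := ∀ {k : Type} [Field k] [CharZero k] {E : Type} [Fintype E] [DecidableEq E]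
  [Nontrivial E] (L : Submodule k (E → k)), Conn L → ∀ e : E, Conn (del e L) → Conn (con e L) →
    PI (del e L) ≠ PI (con e L)

/-- Package CLS: valuations centred at a divisor of `u e = 0` are of one of two types. -/
def S_CLS : Prop := ∀ {k : Type} [Field k] [CharZero k] {E : Type} [Fintype E] [DecidableEq E]
  [Nontrivial E] (L : Submodule k (E → k)), Conn L → ∀ (e : E) {K : Type} [Field K] [Algebra k K]
  (V : ValuationSubring K), (∀ c : k, algebraMap k K c ∈ V) → ∀ x z : E → K, OnL L x →
  OnL (orth L) z → (∀ i, x i ≠ 0) → (∀ i, img x z i ∈ V) → img x z e ∈ V.nonunits →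
  (∀ A B : Set E, Disjoint A B → e ∉ A → e ∉ B → ∀ R S : MvPolynomial E k, R ≠ 0 → S ≠ 0 →
    (∀ i ∈ R.vars, i ∈ A) → (∀ i ∈ S.vars, i ∈ B) →
      ¬ (aeval (img x z) R ∈ V.nonunits ∧ aeval (img x z) S ∈ V.nonunits)) →
  (Conn (del e L) ∧ (∀ i j, x i / x j ∈ V) ∧ ∀ R ∈ PI (del e L),
      aeval (fun i : {i : E // i ≠ e} => img x z i) R ∈ V.nonunits) ∨
  (Conn (con e L) ∧ (∀ i j, i ≠ e → j ≠ e → x i / x j ∈ V) ∧
      (∀ j, j ≠ e → x e / x j ∈ V.nonunits) ∧ ∀ R ∈ PI (con e L),
      aeval (fun i : {i : E // i ≠ e} => img x z i) R ∈ V.nonunits)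

/-- Package NAK: integrality by valuations and Nakayama's lemma. -/
def S_NAK : Prop := ∀ {K : Type} [Field K] (O : LocalSubring K) (s : Finset K),
  (∀ V : ValuationSubring K, O ≤ V.toLocalSubring → ∀ y ∈ s, y ∈ V) →
  (∀ y ∈ s, ∃ a : O.toSubring, ∀ (S : Type) [CommRing S]
    (φ : Subring.closure ((O.toSubring : Set K) ∪ (s : Set K)) →+* S),
    (∀ m : O.toSubring, m ∈ IsLocalRing.maximalIdeal O.toSubring →
      φ ⟨m, Subring.subset_closure (Or.inl m.2)⟩ = 0) →
    ∀ hy : y ∈ Subring.closure ((O.toSubring : Set K) ∪ (s : Set K)),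
      φ ⟨y, hy⟩ = φ ⟨a, Subring.subset_closure (Or.inl a.2)⟩) →
  ∀ y ∈ s, y ∈ O.toSubring

/-- Package MUL: the irreducible factors of `F (u e = 0)` and their multiplicities. -/
def S_MUL : Prop := ∀ {k : Type} [Field k] [CharZero k] {E : Type} [Fintype E] [DecidableEq E]
  [Nontrivial E] (L : Submodule k (E → k)), Conn L → ∀ (e : E) (F : MvPolynomial E k),
  Irreducible F → PI L = Ideal.span {F} → ∀ G : MvPolynomial {i : E // i ≠ e} k, Irreducible G →
  G ∣ rst e F →
  (Conn (del e L) ∧ PI (del e L) = Ideal.span {G} ∧ ¬ G ^ 2 ∣ rst e F) ∨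
  (Conn (con e L) ∧ PI (con e L) = Ideal.span {G} ∧ G ^ 2 ∣ rst e F ∧ ¬ G ^ 3 ∣ rst e F)

/-! ### Geometry -/

section geometry

variable {d : ℕ} {E : Type} [Fintype E]

/-- The points `(1 / l_i (t))` of the reciprocal linear space, `t` outside of the hyperplanes. -/
def recip (l : E → Module.Dual ℂ (Fin (d + 1) → ℂ)) : Set (E → ℂ) :=
  {y | ∃ t, (∀ i, l i t ≠ 0) ∧ ∀ i, y i = (l i t)⁻¹}

/-- The ideal of the reciprocal linear space. -/
def recipIdeal (l : E → Module.Dual ℂ (Fin (d + 1) → ℂ)) : Set (MvPolynomial E ℂ) :=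
  {f | ∀ y ∈ recip l, eval y f = 0}

/-- The cone over the reciprocal linear space, the Zariski closure of `recip l`. -/
def cone (l : E → Module.Dual ℂ (Fin (d + 1) → ℂ)) : Set (E → ℂ) :=
  {p | ∀ f ∈ recipIdeal l, eval p f = 0}

/-- The tangent space of the cone at the point `p`. -/
def tangentSpace (l : E → Module.Dual ℂ (Fin (d + 1) → ℂ)) (p : E → ℂ) : Submodule ℂ (E → ℂ) where
  carrier := {v | ∀ f ∈ recipIdeal l, ∑ j, eval p (pderiv j f) * v j = 0}
  add_mem' := by
    intro a b ha hb f hf
    simp only [Pi.add_apply, mul_add, Finset.sum_add_distrib, ha f hf, hb f hf, add_zero]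
  zero_mem' := by
    intro f _
    simp
  smul_mem' := by
    intro c a ha f hf
    have h := ha f hf
    simp only [Pi.smul_apply, smul_eq_mul]
    have e : ∀ j, eval p (pderiv j f) * (c * a j) = c * (eval p (pderiv j f) * a j) := fun j => by
      ring
    simp only [e, ← Finset.mul_sum, h, mul_zero]

/-- `p` is a smooth point of the reciprocal linear space, a projective variety of dimension `d`. -/
def IsSmoothPoint (l : E → Module.Dual ℂ (Fin (d + 1) → ℂ)) (p : E → ℂ) : Prop :=
  p ∈ cone l ∧ p ≠ 0 ∧ Module.finrank ℂ (tangentSpace l p) = d + 1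

/-- The hyperplanes (their coefficient vectors) tangent to the reciprocal linear space at some
smooth point. -/
def tangentHyperplanes (l : E → Module.Dual ℂ (Fin (d + 1) → ℂ)) : Set (E → ℂ) :=
  {u | u ≠ 0 ∧ ∃ p, IsSmoothPoint l p ∧ ∀ v ∈ tangentSpace l p, ∑ j, u j * v j = 0}

/-- The cone over the dual variety: the Zariski closure. -/
def dualVariety (l : E → Module.Dual ℂ (Fin (d + 1) → ℂ)) : Set (E → ℂ) :=
  {u | ∀ f : MvPolynomial E ℂ, (∀ v ∈ tangentHyperplanes l, eval v f = 0) → eval u f = 0}

/-- The linear space `L`, as a subspace of `ℂ^E`. -/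
def space (l : E → Module.Dual ℂ (Fin (d + 1) → ℂ)) : Submodule ℂ (E → ℂ) :=
  LinearMap.range (LinearMap.pi l)

end geometry

/-- Package GEO, part 1: the dual variety is given by `PI L`. -/
def S_GEO : Prop := ∀ {d : ℕ} {E : Type} [Fintype E]
  (l : E → Module.Dual ℂ (Fin (d + 1) → ℂ)), Submodule.span ℂ (Set.range l) = ⊤ →
  (∀ i, l i ≠ 0) → ∀ u : E → ℂ, u ≠ 0 → (u ∈ dualVariety l ↔ ∀ F ∈ PI (space l), eval u F = 0)

/-- Package GEO, part 2: the rank function of the forms. -/
def S_RKS : Prop := ∀ {d : ℕ} {E : Type} [Fintype E]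
  (l : E → Module.Dual ℂ (Fin (d + 1) → ℂ)) (S : Finset E),
    rk (space l) S = Module.finrank ℂ (Submodule.span ℂ (l '' (S : Set E)))

end Pool.Agent.U424.RL
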